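import Pool.Agent.MP_e4c747_an.Exp

-- part MP_e4c747_an.Smooth
section

/-!
Smoothing on `ZMod Q`: a function that is almost invariant under many shifts only sees few
frequencies.
-/

set_option autoImplicit false
set_option linter.unusedSectionVars false

open Finset Complex
open scoped Real ComplexConjugate

namespace Pool.Agent.MP_e4c747_an

variable {Q : ℕ} [NeZero Q]

theorem orth (b : ZMod Q) : ∑ x : ZMod Q, ψ (x * b) = if b = 0 then (Q : ℂ) else 0 := by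
  have := AddChar.sum_mulShift b (ZMod.isPrimitive_stdAddChar Q)
  rw [ZMod.card] at this
  rw [show ∑ x : ZMod Q, ψ (x * b) = _ from this]
  split_ifs <;> simp

/-- Fourier coefficient -/
noncomputable def hat (G : ZMod Q → ℂ) (k : ZMod Q) : ℂ := (Q : ℂ)⁻¹ * ∑ u, G u * ψ (-(k * u))

theorem inversion (G : ZMod Q → ℂ) (v : ZMod Q) : ∑ k, hat G k * ψ (k * v) = G v := by
  have hQ : (Q : ℂ) ≠ 0 := Nat.cast_ne_zero.2 (NeZero.ne Q)
  have h1 : ∀ k, hat G k * ψ (k * v) = (Q : ℂ)⁻¹ * ∑ u, G u * ψ (k * (v - u)) := by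
    intro k
    rw [hat, mul_assoc, sum_mul]
    congr 1
    refine sum_congr rfl fun u _ => ?_
    rw [mul_assoc, ← ψ_add]
    congr 2
    ring
  simp only [h1]
  rw [← mul_sum, sum_comm]
  simp only [← mul_sum, orth, sub_eq_zero]
  simp only [mul_ite, mul_zero, sum_ite_eq, mem_univ, if_true]
  field_simp

theorem parseval (G : ZMod Q → ℂ) {M : ℝ} (h : ∀ u, ‖G u‖ ≤ M) : ∑ k, ‖hat G k‖ ^ 2 ≤ M ^ 2 := by
  have hQ : (0 : ℝ) < Q := Nat.cast_pos.2 (NeZero.pos Q)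
  have h1 : ((∑ k, ‖hat G k‖ ^ 2 : ℝ) : ℂ) = (Q : ℂ)⁻¹ * ∑ u, G u * conj (G u) := by
    push_cast
    have h2 : ∀ k, (‖hat G k‖ : ℂ) ^ 2 =
        (Q : ℂ)⁻¹ * ∑ u, G u * conj (hat G k * ψ (k * u)) := by
      intro k
      rw [← Complex.mul_conj']
      conv_lhs => rw [hat]
      rw [mul_assoc, sum_mul]
      congr 1
      refine sum_congr rfl fun u _ => ?_
      rw [ψ_neg, map_mul (starRingEnd ℂ) (hat G k), mul_assoc, mul_comm (conj (ψ (k * u)))]
      rfl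
    simp only [h2]
    rw [← mul_sum, sum_comm]
    simp only [← mul_sum, ← map_sum, inversion]
  have h2 : (∑ k, ‖hat G k‖ ^ 2 : ℝ) = (Q : ℝ)⁻¹ * ∑ u, ‖G u‖ ^ 2 := by
    apply Complex.ofReal_injective
    rw [h1]
    push_cast
    simp only [Complex.mul_conj']
  rw [h2, inv_mul_le_iff₀ hQ]
  calc ∑ u, ‖G u‖ ^ 2 ≤ ∑ _u : ZMod Q, M ^ 2 :=
        sum_le_sum fun u _ => pow_le_pow_left₀ (norm_nonneg _) (h u) 2
    _ = _ := by rw [sum_const, card_univ, ZMod.card, nsmul_eq_mul]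

/-- normalised Dirichlet kernel -/
noncomputable def dir (T : ℕ) (k : ZMod Q) : ℂ := (T : ℂ)⁻¹ * ∑ t ∈ range T, ψ (k * (t : ZMod Q))

theorem norm_sum_ψ_le (n : ℕ) (v : ℕ → ZMod Q) : ‖∑ i ∈ range n, ψ (v i)‖ ≤ n := by
  refine (norm_sum_le _ _).trans ?_
  simp

theorem norm_dir_le_one {T : ℕ} (hT : 0 < T) (k : ZMod Q) : ‖dir T k‖ ≤ 1 := by
  have hT' : (0 : ℝ) < T := Nat.cast_pos.2 hT
  rw [dir, norm_mul, norm_inv, Complex.norm_natCast, inv_mul_le_iff₀ hT', mul_one]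
  exact norm_sum_ψ_le _ _

theorem norm_dir_le {T : ℕ} (hT : 0 < T) {k : ZMod Q} (hk : k ≠ 0) :
    ‖dir T k‖ ≤ 2 * Q / (T * nrm k) := by
  have hT' : (0 : ℝ) < T := Nat.cast_pos.2 hT
  have := geom_le hk 0 T
  simp only [zero_add] at this
  rw [dir, norm_mul, norm_inv, Complex.norm_natCast, inv_mul_le_iff₀ hT']
  refine this.trans_eq ?_
  field_simp

theorem smooth_close (G : ZMod Q → ℂ) {T : ℕ} (hT : 0 < T) {η : ℝ}
    (h : ∀ v, ∀ t : ℕ, t < T → ‖G (v + (t : ZMod Q)) - G v‖ ≤ η) (r : ℕ) (v : ZMod Q) :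
    ‖∑ k, hat G k * dir T k ^ r * ψ (k * v) - G v‖ ≤ r * η := by
  have hT' : (0 : ℝ) < T := Nat.cast_pos.2 hT
  have hT'' : (T : ℂ) ≠ 0 := Nat.cast_ne_zero.2 hT.ne'
  induction r generalizing v with
  | zero => simp [inversion]
  | succ r ih =>
    have h1 : ∑ k, hat G k * dir T k ^ (r + 1) * ψ (k * v) - G v = (T : ℂ)⁻¹ * ∑ t ∈ range T,
        ((∑ k, hat G k * dir T k ^ r * ψ (k * (v + (t : ZMod Q))) - G (v + (t : ZMod Q))) +
          (G (v + (t : ZMod Q)) - G v)) := by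
      simp only [sub_add_sub_cancel]
      rw [sum_sub_distrib, sum_const, card_range, nsmul_eq_mul, mul_sub, ← mul_assoc,
        inv_mul_cancel₀ hT'', one_mul, sum_comm, mul_sum]
      congr 1
      refine sum_congr rfl fun k _ => ?_
      simp only [mul_add, ψ_add]
      rw [pow_succ]
      conv_lhs => rw [show dir T k ^ r * dir T k =
        dir T k ^ r * ((T : ℂ)⁻¹ * ∑ t ∈ range T, ψ (k * (t : ZMod Q))) from rfl]
      simp only [mul_sum, sum_mul]
      refine sum_congr rfl fun t _ => ?_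
      ring
    rw [h1, norm_mul, norm_inv, Complex.norm_natCast, inv_mul_le_iff₀ hT']
    refine (norm_sum_le _ _).trans ?_
    calc _ ≤ ∑ _t ∈ range T, (r * η + η) := sum_le_sum fun t ht =>
          (norm_add_le _ _).trans (add_le_add (ih _) (h v t (mem_range.1 ht)))
      _ = _ := by rw [sum_const, card_range, nsmul_eq_mul]; push_cast; ring

theorem smooth_sum (G : ZMod Q → ℂ) {M η δ : ℝ} (hM : ∀ u, ‖G u‖ ≤ M) {T K : ℕ} (hT : 0 < T)
    (hK : 0 < K) (h : ∀ v, ∀ t : ℕ, t < T → ‖G (v + (t : ZMod Q)) - G v‖ ≤ η) (r L : ℕ) (v : ℕ → ZMod Q)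
    (hδ : 0 ≤ δ) (hE : 2 * ∑ k ∈ Icc 1 K, ‖∑ i ∈ range L, ψ ((k : ZMod Q) * v i)‖ ^ 2 +
      Q * ((2 * Q / (T * K)) ^ r * L) ^ 2 ≤ (δ * L) ^ 2) :
    ‖∑ i ∈ range L, G (v i)‖ ≤ L * (‖hat G 0‖ + r * η + M * δ) := by
  classical
  have hT'' : (T : ℂ) ≠ 0 := Nat.cast_ne_zero.2 hT.ne'
  have hM0 : 0 ≤ M := (norm_nonneg _).trans (hM 0)
  let S : ZMod Q → ℂ := fun k => ∑ i ∈ range L, ψ (k * v i)
  have h1 : ∑ i ∈ range L, G (v i) = L * hat G 0 +
      ∑ k ∈ univ.erase 0, hat G k * (dir T k ^ r * S k) -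
      ∑ i ∈ range L, (∑ k, hat G k * dir T k ^ r * ψ (k * v i) - G (v i)) := by
    rw [sum_sub_distrib, sum_comm, ← add_sum_erase _ _ (mem_univ (0 : ZMod Q))]
    have h2 : dir T (0 : ZMod Q) = 1 := by simp [dir, inv_mul_cancel₀ hT'']
    simp only [h2, one_pow, mul_one, zero_mul, AddChar.map_zero_eq_one, sum_const, card_range,
      nsmul_eq_mul, S, mul_sum, mul_assoc]
    ring
  have h2 : ‖∑ i ∈ range L, (∑ k, hat G k * dir T k ^ r * ψ (k * v i) - G (v i))‖ ≤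
      L * (r * η) := by
    refine (norm_sum_le _ _).trans ((sum_le_sum fun i _ => smooth_close G hT h r (v i)).trans ?_)
    rw [sum_const, card_range, nsmul_eq_mul]
  have hS : ∀ k, ‖S k‖ = ‖S (nrm k)‖ := by
    intro k
    rcases eq_nrm k with h3 | h3
    · rw [← h3]
    · rw [← Complex.norm_conj (S (nrm k))]
      simp only [S, map_sum, ← ψ_neg, ← neg_mul, ← h3]
  have h3 : ∑ k ∈ univ.erase 0, ‖dir T k ^ r * S k‖ ^ 2 ≤ (δ * L) ^ 2 := by
    refine le_trans ?_ hE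
    rw [← sum_filter_add_sum_filter_not (univ.erase 0) (fun k => nrm k ≤ K)]
    refine add_le_add (le_trans (sum_le_sum fun k _ => ?_) (sum_nrm_le _ K (fun x hx =>
      ⟨(mem_erase.1 (mem_filter.1 hx).1).1, (mem_filter.1 hx).2⟩) (fun j => ‖S j‖ ^ 2)
      fun _ => by positivity)) ?_
    · rw [norm_mul, norm_pow, ← hS]
      exact pow_le_pow_left₀ (by positivity) (mul_le_of_le_one_left (norm_nonneg _)
        (pow_le_one₀ (norm_nonneg _) (norm_dir_le_one hT k))) 2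
    · refine (sum_le_card_nsmul _ _ ((((2 * Q / (T * K) : ℝ)) ^ r * L) ^ 2) fun k hk => ?_).trans ?_
      · rw [norm_mul, norm_pow]
        have h4 : (K : ℝ) ≤ nrm k := by exact_mod_cast (not_le.1 (mem_filter.1 hk).2).le
        have h5 : ‖dir T k‖ ≤ 2 * Q / (T * K) :=
          (norm_dir_le hT (mem_erase.1 (mem_filter.1 hk).1).1).trans (by gcongr)
        have h6 : ‖S k‖ ≤ L := norm_sum_ψ_le _ _
        gcongr
      · rw [nsmul_eq_mul]
        refine mul_le_mul_of_nonneg_right ?_ (by positivity)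
        exact_mod_cast (card_le_univ _).trans (ZMod.card Q).le
  have h4 : ‖∑ k ∈ univ.erase 0, hat G k * (dir T k ^ r * S k)‖ ≤ M * (δ * L) := by
    refine (norm_sum_le _ _).trans (le_of_sq_le_sq ?_ (by positivity))
    simp only [norm_mul (hat G _)]
    refine (sum_mul_sq_le_sq_mul_sq _ _ _).trans ?_
    rw [mul_pow M]
    exact mul_le_mul ((sum_le_sum_of_subset_of_nonneg (subset_univ _)
      fun _ _ _ => by positivity).trans (parseval G hM)) h3 (by positivity) (by positivity)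
  rw [h1]
  refine (norm_sub_le _ _).trans ?_
  have h5 := norm_add_le ((L : ℂ) * hat G 0) (∑ k ∈ univ.erase 0, hat G k * (dir T k ^ r * S k))
  rw [norm_mul, Complex.norm_natCast] at h5
  linarith

/-- `F` is almost invariant under the shifts `t q`, `t < T` -/
def Per (F : ℕ → ℂ) (η : ℝ) (q T : ℕ) : Prop := ∀ m, ∀ t < T, ‖F (m + t * q) - F m‖ ≤ η

theorem Per.mod {F : ℕ → ℂ} {η : ℝ} {T : ℕ} (h : Per F η Q T) (m0 : ℕ) {w : ℕ} (hw : w < Q * T) :
    ‖F (m0 + w) - F (m0 + (w : ZMod Q).val)‖ ≤ η := by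
  have := h (m0 + w % Q) (w / Q) (Nat.div_lt_of_lt_mul hw)
  rwa [add_assoc, mul_comm, Nat.mod_add_div, ← ZMod.val_natCast] at this

theorem window {F : ℕ → ℂ} {M η δ : ℝ} (hM : ∀ m, ‖F m‖ ≤ M) {q T T' K : ℕ} (hT : 0 < T)
    (hK : 0 < K) (hq : q ≤ Q) (hTT : T ≤ T') (h1 : Per F η q T) (h2 : Per F η Q T')
    (h3 : ∀ m0, ‖∑ u ∈ range Q, F (m0 + u)‖ ≤ η * Q) {b : ZMod Q} (hb : (q : ZMod Q) * b = 1)
    (r L m0 : ℕ) (m : ℕ → ℕ) (hm : ∀ i < L, m0 ≤ m i ∧ m i < m0 + Q * T') (hδ : 0 ≤ δ)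
    (hE : 2 * ∑ k ∈ Icc 1 K, ‖∑ i ∈ range L, ψ ((k : ZMod Q) * b * (m i : ZMod Q))‖ ^ 2 +
      Q * ((2 * Q / (T * K)) ^ r * L) ^ 2 ≤ (δ * L) ^ 2) :
    ‖∑ i ∈ range L, F (m i)‖ ≤ L * ((2 * r + 2) * η + M * δ) := by
  have hQ : (0 : ℝ) < Q := Nat.cast_pos.2 (NeZero.pos Q)
  let G : ZMod Q → ℂ := fun v => F (m0 + ((q : ZMod Q) * v).val)
  have k1 := smooth_sum G (M := M) (η := 2 * η) (fun u => hM _) hT hK (fun v t ht => by
      have e1 : (q : ZMod Q) * (v + (t : ZMod Q)) = ((((q : ZMod Q) * v).val + t * q : ℕ) : ZMod Q) := by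
        push_cast
        rw [ZMod.natCast_zmod_val]
        ring
      have e2 := h2.mod m0 (w := ((q : ZMod Q) * v).val + t * q) (by
        have := ZMod.val_lt ((q : ZMod Q) * v)
        have : t * q ≤ t * Q := Nat.mul_le_mul_left _ hq
        have : Q * (t + 1) ≤ Q * T' := Nat.mul_le_mul_left _ (by omega)
        nlinarith)
      have e3 := h1 (m0 + ((q : ZMod Q) * v).val) t ht
      rw [← e1, ← add_assoc, norm_sub_rev] at e2
      exact (norm_sub_le_norm_sub_add_norm_sub (G (v + (t : ZMod Q)))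
        (F (m0 + ((q : ZMod Q) * v).val + t * q)) (G v)).trans
          ((add_le_add e2 e3).trans_eq (two_mul η).symm)) r L (fun i => b * ((m i : ZMod Q) - (m0 : ZMod Q))) hδ (by
      refine le_of_eq_of_le ?_ hE
      congr 2
      refine sum_congr rfl fun k _ => ?_
      congr 1
      have : ∀ i, ψ ((k : ZMod Q) * (b * ((m i : ZMod Q) - (m0 : ZMod Q)))) =
          ψ ((k : ZMod Q) * b * (m i : ZMod Q)) * ψ (-((k : ZMod Q) * b * (m0 : ZMod Q))) := by
        intro i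
        rw [← ψ_add]
        congr 1
        ring
      simp only [this]
      rw [← sum_mul, norm_mul, norm_ψ, mul_one])
  have k2 : ‖hat G 0‖ ≤ η := by
    have e1 : ∑ u, G u = ∑ u ∈ range Q, F (m0 + u) := by
      refine sum_nbij' (fun v => ((q : ZMod Q) * v).val) (fun u => b * (u : ZMod Q)) ?_ ?_ ?_ ?_ ?_
      · exact fun v _ => mem_range.2 (ZMod.val_lt _)
      · exact fun _ _ => mem_univ _
      · intro v _
        rw [ZMod.natCast_zmod_val]
        linear_combination v * hb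
      · intro u hu
        rw [← mul_assoc, hb, one_mul, ZMod.val_natCast, Nat.mod_eq_of_lt (mem_range.1 hu)]
      · exact fun _ _ => rfl
    simp only [hat, zero_mul, neg_zero, AddChar.map_zero_eq_one, mul_one, e1]
    rw [norm_mul, norm_inv, Complex.norm_natCast, inv_mul_le_iff₀ hQ, mul_comm]
    exact h3 m0
  have k3 : ‖∑ i ∈ range L, F (m i) - ∑ i ∈ range L, G (b * ((m i : ZMod Q) - (m0 : ZMod Q)))‖ ≤ L * η := by
    rw [← sum_sub_distrib]
    refine (norm_sum_le _ _).trans ((sum_le_card_nsmul _ _ η fun i hi => ?_).trans ?_)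
    · obtain ⟨e1, e2⟩ := hm i (mem_range.1 hi)
      have e3 := h2.mod m0 (w := m i - m0) (by omega)
      rw [show m0 + (m i - m0) = m i by omega, Nat.cast_sub e1] at e3
      simp only [G]
      rwa [← mul_assoc, hb, one_mul]
    · rw [card_range, nsmul_eq_mul]
  have k4 := norm_le_norm_sub_add (∑ i ∈ range L, F (m i))
    (∑ i ∈ range L, G (b * ((m i : ZMod Q) - (m0 : ZMod Q))))
  have k5 : (0 : ℝ) ≤ L := Nat.cast_nonneg _
  have k6 := mul_le_mul_of_nonneg_left k2 k5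
  refine k4.trans ((add_le_add k3 k1).trans ?_)
  generalize ‖hat G 0‖ = c at k6 ⊢
  linarith

theorem blocks {a : ℕ → ℂ} {M δ s : ℝ} (hM : ∀ i, ‖a i‖ ≤ M) (hδ : 0 ≤ δ) (hs : 0 ≤ s) {L N : ℕ}
    (hL : 0 < L) (h : ∀ i0 : ℕ, s ≤ i0 → i0 + L ≤ N → ‖∑ i ∈ range L, a (i0 + i)‖ ≤ L * δ) :
    ‖∑ i ∈ range N, a i‖ ≤ N * δ + M * (s + L) := by
  have hM0 : 0 ≤ M := (norm_nonneg _).trans (hM 0)
  have key : ∀ n, n ≤ N → ‖∑ i ∈ range n, a i‖ ≤ n * δ + M * (s + L) := by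
    intro n
    induction n using Nat.strong_induction_on with
    | _ n ih =>
    intro hn
    by_cases h1 : (n : ℝ) < s + L
    · refine (norm_sum_le _ _).trans ((sum_le_card_nsmul _ _ M fun i _ => hM i).trans ?_)
      rw [card_range, nsmul_eq_mul]
      have : 0 ≤ (n : ℝ) * δ := by positivity
      nlinarith
    · have h2 : L ≤ n := by
        have : (L : ℝ) ≤ n := by linarith
        exact_mod_cast this
      obtain ⟨n', rfl⟩ : ∃ n', n = n' + L := ⟨n - L, by omega⟩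
      rw [sum_range_add]
      have h3 := ih n' (by omega) (by omega)
      have h4 := h n' (by push_cast at h1; linarith) hn
      refine (norm_add_le _ _).trans ?_
      push_cast
      linarith
  exact key N le_rfl

theorem sum_range_mul' (g : ℕ → ℂ) (q H : ℕ) :
    ∑ i ∈ range (q * H), g i = ∑ r ∈ range q, ∑ j ∈ range H, g (r + q * j) := by
  induction H with
  | zero => simp
  | succ H ih =>
    rw [mul_add, mul_one, sum_range_add, ih, ← sum_add_distrib]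
    refine sum_congr rfl fun r _ => ?_
    rw [sum_range_succ, add_comm (q * H)]

end Pool.Agent.MP_e4c747_an

end

-- part MP_e4c747_an.Weyl
section

/-!
Mean square bounds for cubic exponential sums over the low frequencies.
-/

set_option autoImplicit false
set_option linter.unusedSectionVars false

open Finset Complex
open scoped Real ComplexConjugate

namespace Pool.Agent.MP_e4c747_an

variable {Q : ℕ} [NeZero Q]

theorem weyl_diff_ψ (φ : ℕ → ZMod Q) {n H : ℕ} (hn : n ≤ H) :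
    ‖∑ i ∈ range n, ψ (φ i)‖ ^ 2 ≤
      H + 2 * ∑ h ∈ range H, ‖∑ i ∈ range (n - (h + 1)), ψ (φ (i + (h + 1)) - φ i)‖ := by
  simpa only [ψ_sub] using weyl_diff (fun i => ψ (φ i)) (fun i => norm_ψ _) hn

open Classical in
/-- bound for linear sums -/
noncomputable def lin (H : ℕ) (x : ZMod Q) : ℝ := if x = 0 then H else 2 * Q / nrm x

theorem lin_nonneg (H : ℕ) (x : ZMod Q) : 0 ≤ lin H x := by
  unfold lin; split_ifs <;> positivity

theorem geom_le_lin (x c : ZMod Q) {n H : ℕ} (hn : n ≤ H) :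
    ‖∑ j ∈ range n, ψ (c + x * (j : ZMod Q))‖ ≤ lin H x := by
  unfold lin
  split_ifs with h
  · exact (norm_sum_ψ_le _ _).trans (by exact_mod_cast hn)
  · exact geom_le h c n

theorem sum_lin_le (H : ℕ) : ∑ x : ZMod Q, lin H x ≤ H + 4 * Q * (1 + Real.log Q) := by
  classical
  rw [← add_sum_erase _ _ (mem_univ (0 : ZMod Q))]
  have h1 : ∑ x ∈ univ.erase (0 : ZMod Q), lin H x =
      ∑ x ∈ univ.erase (0 : ZMod Q), (fun r : ℕ => (2 * Q / r : ℝ)) (nrm x) :=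
    sum_congr rfl fun x hx => by unfold lin; rw [if_neg (mem_erase.1 hx).1]
  have h2 := sum_nrm_le (univ.erase (0 : ZMod Q)) Q (fun x hx => ⟨(mem_erase.1 hx).1,
    (nrm_le x).trans (Nat.div_le_self _ _)⟩) (fun r : ℕ => (2 * Q / r : ℝ)) fun _ => by positivity
  have h3 : ∑ r ∈ Icc 1 Q, (2 * Q / r : ℝ) = 2 * Q * ∑ r ∈ Icc 1 Q, (1 / r : ℝ) := by
    rw [mul_sum]
    exact sum_congr rfl fun r _ => by ring
  have h4 := mul_le_mul_of_nonneg_left (harm_le Q) (by positivity : (0 : ℝ) ≤ 2 * Q)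
  have h5 : lin H (0 : ZMod Q) = H := by unfold lin; rw [if_pos rfl]
  rw [h1, h5]
  linarith

theorem sum_triple_le {q b : ZMod Q} (hb : q * b = 1) (K H : ℕ) {D : ℝ}
    (hD : ∀ m ∈ Icc 1 (6 * K * H ^ 2), (#m.divisors : ℝ) ^ 2 ≤ D) (hD0 : 0 ≤ D) :
    ∑ k ∈ Icc 1 K, ∑ h ∈ range H, ∑ g ∈ range H,
      lin H (((6 * k * (h + 1) * (g + 1) : ℕ) : ZMod Q) * b) ≤
      D * ((6 * K * H ^ 2 / Q + 1) * (H + 4 * Q * (1 + Real.log Q))) := by
  classical
  have h1 := sum_comp_le (Icc 1 K ×ˢ range H ×ˢ range H) (Icc 1 (6 * K * H ^ 2))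
    (fun x => 6 * x.1 * (x.2.1 + 1) * (x.2.2 + 1)) (D := D) (by
      rintro ⟨k, h, g⟩ hx
      simp only [mem_product, mem_Icc, mem_range] at hx ⊢
      refine ⟨Nat.one_le_iff_ne_zero.2 (by have := hx.1.1; positivity), ?_⟩
      rw [pow_two, ← mul_assoc]
      exact Nat.mul_le_mul (Nat.mul_le_mul (Nat.mul_le_mul_left _ hx.1.2) hx.2.1) hx.2.2)
    (fun m hm => by
      refine le_trans ?_ (hD m hm)
      have hm0 : m ≠ 0 := by have := (mem_Icc.1 hm).1; omega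
      have : #{a ∈ Icc 1 K ×ˢ range H ×ˢ range H | 6 * a.1 * (a.2.1 + 1) * (a.2.2 + 1) = m} ≤
          #(m.divisors ×ˢ m.divisors) := by
        refine card_le_card_of_injOn (fun a => (a.1, a.2.1 + 1)) ?_ ?_
        · rintro ⟨k, h, g⟩ hx
          have e := (mem_filter.1 hx).2
          dsimp only at e
          simp only [coe_product, Set.mem_prod, mem_coe, Nat.mem_divisors]
          exact ⟨⟨⟨6 * (h + 1) * (g + 1), by rw [← e]; ring⟩, hm0⟩,
            ⟨⟨6 * k * (g + 1), by rw [← e]; ring⟩, hm0⟩⟩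
        · rintro ⟨k, h, g⟩ hx ⟨k', h', g'⟩ hx' e
          have e1 := (mem_filter.1 hx).2
          have e2 := (mem_filter.1 hx').2
          simp only [Prod.mk.injEq, add_left_inj] at e e1 e2 ⊢
          obtain ⟨rfl, rfl⟩ := e
          refine ⟨rfl, rfl, ?_⟩
          have e3 : 0 < 6 * k * (h + 1) := Nat.pos_of_ne_zero fun h0 => hm0 (by rw [← e1, h0, zero_mul])
          have := Nat.eq_of_mul_eq_mul_left e3 (e1.trans e2.symm)
          omega
      rw [card_product, ← pow_two] at this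
      exact_mod_cast this)
    (fun m => lin H ((m : ZMod Q) * b)) (fun _ _ => lin_nonneg _ _)
  have h2 := sum_comp_le (Icc 1 (6 * K * H ^ 2)) univ (fun m : ℕ => (m : ZMod Q) * b)
    (D := 6 * K * H ^ 2 / Q + 1) (fun _ _ => mem_univ _) (fun x _ => by
      have : #{m ∈ (Icc 1 (6 * K * H ^ 2) : Finset ℕ) | ((m : ℕ) : ZMod Q) * b = x} ≤
          #(range (6 * K * H ^ 2 / Q + 1)) := by
        refine card_le_card_of_injOn (fun m => m / Q) ?_ ?_
        · intro m hm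
          exact mem_coe.2 (mem_range.2 (Nat.lt_succ_of_le
            (Nat.div_le_div_right (mem_Icc.1 (mem_filter.1 hm).1).2)))
        · intro m hm m' hm' e
          have e1 := (mem_filter.1 hm).2
          have e2 := (mem_filter.1 hm').2
          have e3 : (m : ZMod Q) = m' := by
            linear_combination q * e1 - q * e2 - ((m : ZMod Q) - m') * hb
          have e4 : m % Q = m' % Q := (ZMod.natCast_eq_natCast_iff' _ _ _).1 e3
          rw [← Nat.div_add_mod m Q, ← Nat.div_add_mod m' Q, e4, show m / Q = m' / Q from e]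
      rw [card_range] at this
      have h3 : ((6 * K * H ^ 2 / Q : ℕ) : ℝ) ≤ (6 * K * H ^ 2 : ℕ) / Q := Nat.cast_div_le
      have h4 : (#{m ∈ (Icc 1 (6 * K * H ^ 2) : Finset ℕ) | ((m : ℕ) : ZMod Q) * b = x} : ℝ) ≤
        (6 * K * H ^ 2 / Q : ℕ) + 1 := by exact_mod_cast this
      push_cast at h3
      linarith) (lin H) (fun _ _ => lin_nonneg _ _)
  simp only [sum_product] at h1
  refine h1.trans (mul_le_mul_of_nonneg_left (h2.trans ?_) hD0)
  exact mul_le_mul_of_nonneg_left (sum_lin_le H) (by positivity)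

theorem weyl_cubic {q b : ZMod Q} (hb : q * b = 1) (K H i0 : ℕ) {D l : ℝ}
    (hD : ∀ m ∈ Icc 1 (6 * K * H ^ 2), (#m.divisors : ℝ) ^ 2 ≤ D) (hD0 : 0 ≤ D) (hl : 0 < l) :
    ∑ k ∈ Icc 1 K, ‖∑ i ∈ range H, ψ ((k : ZMod Q) * b * (((i0 + i) ^ 3 : ℕ) : ZMod Q))‖ ^ 2 ≤
      K * H + K * H * l + (K * H ^ 2 +
        2 * (D * ((6 * K * H ^ 2 / Q + 1) * (H + 4 * Q * (1 + Real.log Q))))) / l := by
  have h1 : ∀ k : ℕ, ‖∑ i ∈ range H, ψ ((k : ZMod Q) * b * (((i0 + i) ^ 3 : ℕ) : ZMod Q))‖ ^ 2 ≤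
      H + H * l + (H ^ 2 + 2 * ∑ h ∈ range H, ∑ g ∈ range H,
        lin H (((6 * k * (h + 1) * (g + 1) : ℕ) : ZMod Q) * b)) / l := by
    intro k
    refine (weyl_diff_ψ (fun i => (k : ZMod Q) * b * (((i0 + i) ^ 3 : ℕ) : ZMod Q)) le_rfl).trans ?_
    have h2 : ∀ h ∈ range H, 2 * ‖∑ i ∈ range (H - (h + 1)),
        ψ ((k : ZMod Q) * b * (((i0 + (i + (h + 1))) ^ 3 : ℕ) : ZMod Q) -
          (k : ZMod Q) * b * (((i0 + i) ^ 3 : ℕ) : ZMod Q))‖ ≤
        l + (H + 2 * ∑ g ∈ range H, lin H (((6 * k * (h + 1) * (g + 1) : ℕ) : ZMod Q) * b)) / l := by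
      intro h _
      have h3 := (weyl_diff_ψ (fun i => (k : ZMod Q) * b * (((i0 + (i + (h + 1))) ^ 3 : ℕ) : ZMod Q) -
          (k : ZMod Q) * b * (((i0 + i) ^ 3 : ℕ) : ZMod Q)) (Nat.sub_le H (h + 1))).trans
        (add_le_add_right (mul_le_mul_of_nonneg_left (sum_le_sum (g := fun g =>
          lin H (((6 * k * (h + 1) * (g + 1) : ℕ) : ZMod Q) * b)) fun g _ => by
            refine le_of_eq_of_le ?_ (geom_le_lin (((6 * k * (h + 1) * (g + 1) : ℕ) : ZMod Q) * b)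
              ((k : ZMod Q) * b * (3 * (h + 1) * (g + 1) * (2 * i0 + (h + 1) + (g + 1))))
              (n := H - (h + 1) - (g + 1)) (by omega))
            congr 1
            refine sum_congr rfl fun i _ => ?_
            congr 1
            push_cast
            ring) zero_le_two) _)
      generalize ‖∑ i ∈ range (H - (h + 1)),
        ψ ((k : ZMod Q) * b * (((i0 + (i + (h + 1))) ^ 3 : ℕ) : ZMod Q) -
          (k : ZMod Q) * b * (((i0 + i) ^ 3 : ℕ) : ZMod Q))‖ = u at h3 ⊢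
      rw [← sub_le_iff_le_add', le_div_iff₀ hl]
      nlinarith [sq_nonneg (u - l)]
    rw [mul_sum, add_assoc]
    refine add_le_add_right ((sum_le_sum h2).trans_eq ?_) _
    rw [sum_add_distrib, sum_const, card_range, nsmul_eq_mul, ← sum_div, sum_add_distrib,
      sum_const, card_range, nsmul_eq_mul, ← mul_sum, pow_two]
  refine (sum_le_sum fun k _ => h1 k).trans ?_
  rw [sum_add_distrib, sum_const, Nat.card_Icc, nsmul_eq_mul, ← sum_div, sum_add_distrib,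
    sum_const, Nat.card_Icc, nsmul_eq_mul, ← mul_sum, Nat.add_sub_cancel]
  have h2 := sum_triple_le hb K H hD hD0
  rw [mul_add, ← mul_assoc]
  gcongr

theorem kl_cubic {q : ℕ} {b : ZMod Q} (hb : (q : ZMod Q) * b = 1) (hq : 0 < q) (K H i : ℕ)
    (hi : 0 < i) (hQ : 12 * K * q * H * (i + q * H) ≤ Q) :
    ∑ k ∈ Icc 1 K, ‖∑ j ∈ range H, ψ ((k : ZMod Q) * b * (((i + q * j) ^ 3 : ℕ) : ZMod Q))‖ ^ 2 ≤
      K * H + Q / (q * i) * ((1 + Real.log K) * (1 + Real.log H)) := by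
  have hH : ∑ h ∈ range H, (1 / ((h + 1 : ℕ) : ℝ)) ≤ 1 + Real.log H := by
    refine le_of_eq_of_le ?_ (harm_le H)
    rw [range_eq_Ico, sum_Ico_add' (fun r : ℕ => (1 / r : ℝ)) 0 H 1]
    rfl
  have h1 : ∀ k ∈ Icc 1 K,
      ‖∑ j ∈ range H, ψ ((k : ZMod Q) * b * (((i + q * j) ^ 3 : ℕ) : ZMod Q))‖ ^ 2 ≤
      H + Q / (q * i) * (1 / k * (1 + Real.log H)) := by
    intro k hk
    obtain ⟨hk1, hk2⟩ := mem_Icc.1 hk
    refine (weyl_diff_ψ (fun j => (k : ZMod Q) * b * (((i + q * j) ^ 3 : ℕ) : ZMod Q))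
      le_rfl).trans ?_
    have h2 : ∀ h ∈ range H, 2 * ‖∑ j ∈ range (H - (h + 1)),
        ψ ((k : ZMod Q) * b * (((i + q * (j + (h + 1))) ^ 3 : ℕ) : ZMod Q) -
          (k : ZMod Q) * b * (((i + q * j) ^ 3 : ℕ) : ZMod Q))‖ ≤
        Q / (q * i) * (1 / k * (1 / ((h + 1 : ℕ) : ℝ))) := by
      intro h hh
      have hh' := mem_range.1 hh
      have h3 := kl_zmod (fun j => (k : ZMod Q) * b * (((i + q * (j + (h + 1))) ^ 3 : ℕ) : ZMod Q) -
          (k : ZMod Q) * b * (((i + q * j) ^ 3 : ℕ) : ZMod Q))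
        (fun j => 3 * k * q * (h + 1) * (2 * i + q * (2 * j + (h + 1) + 1))) (H - (h + 1))
        (l := 6 * k * q * (h + 1 : ℕ) * i) (by positivity)
        (fun j _ => by
          push_cast
          linear_combination
            (3 * k * q * (h + 1) * (2 * i + q * (2 * j + (h + 1) + 1)) : ZMod Q) * hb)
        (by
          have : 6 * k * q * (h + 1) * i ≤
              3 * k * q * (h + 1) * (2 * i + q * (2 * 0 + (h + 1) + 1)) := by
            rw [mul_add (3 * k * q * (h + 1))]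
            exact le_trans (le_of_eq (by ring)) (Nat.le_add_right _ _)
          exact_mod_cast this)
        (fun j _ => by gcongr; omega)
        (fun j hj => by
          refine le_trans ?_ hQ
          calc 2 * (3 * k * q * (h + 1) * (2 * i + q * (2 * j + (h + 1) + 1)))
              ≤ 2 * (3 * K * q * H * (2 * i + q * (2 * H))) := by gcongr <;> omega
            _ = _ := by ring)
      refine (mul_le_mul_of_nonneg_left h3 zero_le_two).trans ?_
      have h4 : (0 : ℝ) ≤ Q / (q * i) * (1 / k * (1 / ((h + 1 : ℕ) : ℝ))) := by positivity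
      have h5 : 2 * (2 * (Q : ℝ) / (6 * k * q * (h + 1 : ℕ) * i)) =
          2 / 3 * (Q / (q * i) * (1 / k * (1 / ((h + 1 : ℕ) : ℝ)))) := by
        field_simp
        ring
      linarith
    rw [mul_sum]
    refine add_le_add_right ((sum_le_sum h2).trans ?_) _
    rw [← mul_sum, ← mul_sum]
    gcongr
  refine (sum_le_sum h1).trans ?_
  rw [sum_add_distrib, sum_const, Nat.card_Icc, nsmul_eq_mul, ← mul_sum, ← sum_mul,
    Nat.add_sub_cancel]
  have h2 := harm_le K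
  have h3 : 0 ≤ 1 + Real.log H := by have := Real.log_natCast_nonneg H; linarith
  gcongr

end Pool.Agent.MP_e4c747_an

end

-- part MP_e4c747_an.Core
section

/-!
Choice of the parameters: cubic sums of a function with two consecutive rigidity scales.
-/

set_option autoImplicit false
set_option linter.unusedSectionVars false

open Finset Complex
open scoped Real ComplexConjugate

namespace Pool.Agent.MP_e4c747_an

theorem ceil_le_two {x : ℝ} (hx : 1 ≤ x) : (⌈x⌉₊ : ℝ) ≤ 2 * x := by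
  have := Nat.ceil_lt_add_one (zero_le_one.trans hx)
  linarith

theorem log_le_of {y x : ℝ} (hy : 1 ≤ y) (hx : 0 < x) (h : x ≤ y ^ 400) :
    1 + Real.log x ≤ 401 * y := by
  have h1 := Real.log_le_log hx h
  rw [Real.log_pow] at h1
  have h2 := Real.log_le_self (zero_le_one.trans hy)
  push_cast at h1
  linarith

variable {Q : ℕ} [NeZero Q] {F : ℕ → ℂ} {M η δ y : ℝ} {q T T' : ℕ} {b : ZMod Q}

theorem window' (hM : ∀ m, ‖F m‖ ≤ M) (hy : 7 ≤ y) (hQ : y ^ 400 = Q) (hT : y ^ 320 ≤ T)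
    (hq : q ≤ Q) (hTT : T ≤ T') (h1 : Per F η q T) (h2 : Per F η Q T')
    (h3 : ∀ m0, ‖∑ u ∈ range Q, F (m0 + u)‖ ≤ η * Q) (hb : (q : ZMod Q) * b = 1)
    (L m0 : ℕ) (m : ℕ → ℕ) (hm : ∀ i < L, m0 ≤ m i ∧ m i < m0 + Q * T') (hδ : 0 ≤ δ) {c : ℝ}
    (hc : 2 * c + 1 ≤ δ ^ 2 * y)
    (hE : ∑ k ∈ Icc 1 ⌈y ^ 82⌉₊, ‖∑ i ∈ range L, ψ ((k : ZMod Q) * b * (m i : ZMod Q))‖ ^ 2 ≤
      c * (L ^ 2 / y)) :
    ‖∑ i ∈ range L, F (m i)‖ ≤ L * (404 * η + M * δ) := by
  have hy0 : 0 < y := by linarith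
  have hT0 : 0 < T := Nat.cast_pos.1 ((pow_pos hy0 _).trans_le hT)
  have hK : y ^ 82 ≤ ⌈y ^ 82⌉₊ := Nat.le_ceil _
  have := window hM hT0 (Nat.ceil_pos.2 (pow_pos hy0 82)) hq hTT h1 h2 h3 hb 201 L m0 m hm hδ (by
    have e0 : (0 : ℝ) ≤ 2 * Q / (T * ⌈y ^ 82⌉₊) :=
      div_nonneg (by positivity) (mul_nonneg (Nat.cast_nonneg _) (Nat.cast_nonneg _))
    have e1 : (2 * Q / (T * ⌈y ^ 82⌉₊) : ℝ) ≤ 1 / y := by
      calc (2 * Q / (T * ⌈y ^ 82⌉₊) : ℝ) ≤ y * Q / (y ^ 320 * y ^ 82) := by gcongr; linarith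
        _ = 1 / y := by rw [← hQ]; field_simp
    have e2 : Q * ((2 * Q / (T * ⌈y ^ 82⌉₊) : ℝ) ^ 201 * L) ^ 2 ≤ L ^ 2 / y := by
      calc Q * ((2 * Q / (T * ⌈y ^ 82⌉₊) : ℝ) ^ 201 * L) ^ 2
          ≤ (y * Q) * ((1 / y) ^ 201 * L) ^ 2 :=
            mul_le_mul (le_mul_of_one_le_left (Nat.cast_nonneg _) (by linarith))
              (pow_le_pow_left₀ (mul_nonneg (pow_nonneg e0 _) (Nat.cast_nonneg _))
                (mul_le_mul_of_nonneg_right (pow_le_pow_left₀ e0 e1 201) (Nat.cast_nonneg _)) 2)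
              (sq_nonneg _) (by positivity)
        _ = L ^ 2 / y := by rw [← hQ]; field_simp
    have e3 : (2 * c + 1) * (L ^ 2 / y) ≤ (δ * L) ^ 2 := by
      calc (2 * c + 1) * (L ^ 2 / y) ≤ δ ^ 2 * y * (L ^ 2 / y) := by gcongr
        _ = _ := by field_simp
    linarith)
  norm_num at this
  exact this

theorem blockA {C : ℕ} (hC1 : 1 ≤ C) (hC : ∀ n : ℕ, n ≠ 0 → #n.divisors ^ 840 ≤ C * n)
    (hM : ∀ m, ‖F m‖ ≤ M) (hy : 7 ≤ y) (hQ : y ^ 400 = Q) (hT : y ^ 320 ≤ T)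
    (hq : q ≤ Q) (hTT : T ≤ T') (h1 : Per F η q T) (h2 : Per F η Q T')
    (h3 : ∀ m0, ‖∑ u ∈ range Q, F (m0 + u)‖ ≤ η * Q) (hb : (q : ZMod Q) * b = 1)
    (hδ : 0 ≤ δ) (hc : 400000 * C ≤ δ ^ 2 * y) {N i0 : ℕ} (hN : i0 + ⌈y ^ 168⌉₊ ≤ N)
    (hw : 3 * N ^ 2 * ⌈y ^ 168⌉₊ < Q * T') :
    ‖∑ i ∈ range ⌈y ^ 168⌉₊, F ((i0 + i) ^ 3)‖ ≤ ⌈y ^ 168⌉₊ * (404 * η + M * δ) := by
  have hy0 : 0 < y := by linarith
  have hy1 : 1 ≤ y := by linarith
  have hC' : (1 : ℝ) ≤ C := by exact_mod_cast hC1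
  have pw : ∀ a b : ℕ, a ≤ b → y ^ a ≤ y ^ b := fun a b h => pow_le_pow_right₀ hy1 h
  have hK : (⌈y ^ 82⌉₊ : ℝ) ≤ 2 * y ^ 82 := ceil_le_two (one_le_pow₀ hy1)
  have hH : (⌈y ^ 168⌉₊ : ℝ) ≤ 2 * y ^ 168 := ceil_le_two (one_le_pow₀ hy1)
  have hH' : y ^ 168 ≤ ⌈y ^ 168⌉₊ := Nat.le_ceil _
  generalize ⌈y ^ 168⌉₊ = H at *
  refine window' hM hy hQ hT hq hTT h1 h2 h3 hb H (i0 ^ 3) (fun i => (i0 + i) ^ 3)
    (fun i hi => ⟨Nat.pow_le_pow_left (Nat.le_add_right _ _) 3, ?_⟩) hδ (c := 6 + 157388 * C)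
    (by linarith) ?_
  · calc (i0 + i) ^ 3 ≤ i0 ^ 3 + 3 * (i0 + i) ^ 2 * i := by
          have : i0 ^ 3 + 3 * (i0 + i) ^ 2 * i = (i0 + i) ^ 3 + (3 * i0 * i ^ 2 + 2 * i ^ 3) := by
            ring
          omega
      _ ≤ i0 ^ 3 + 3 * N ^ 2 * H := by gcongr; omega
      _ < _ := by omega
  generalize ⌈y ^ 82⌉₊ = K at *
  have e0 : (6 * K * H ^ 2 : ℝ) ≤ 48 * y ^ 418 := by
    calc (6 * K * H ^ 2 : ℝ) ≤ 6 * (2 * y ^ 82) * (2 * y ^ 168) ^ 2 := by gcongr
      _ = _ := by ring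
  refine (weyl_cubic hb K H i0 (D := C * y) (l := y ^ 85) (fun m hm => ?_) (by positivity)
    (by positivity)).trans ?_
  · obtain ⟨m1, m2⟩ := mem_Icc.1 hm
    have e1 : (#m.divisors : ℝ) ^ 840 ≤ C * m := by exact_mod_cast hC m (by omega)
    have e2 : (m : ℝ) ≤ 6 * K * H ^ 2 := by exact_mod_cast m2
    refine le_of_pow_le_pow_left₀ (n := 420) (by norm_num) (by positivity) ?_
    calc ((#m.divisors : ℝ) ^ 2) ^ 420 = (#m.divisors : ℝ) ^ 840 := by rw [← pow_mul]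
      _ ≤ (C : ℝ) * m := e1
      _ ≤ (C : ℝ) ^ 420 * (y ^ 2 * y ^ 418) := by
          gcongr
          · exact le_self_pow₀ hC' (by norm_num)
          · refine (e2.trans e0).trans ?_
            gcongr
            nlinarith
      _ = (C * y) ^ 420 := by rw [mul_pow, ← pow_add]
  have e1 : (6 * K * H ^ 2 / Q + 1 : ℝ) ≤ 49 * y ^ 18 := by
    have : (6 * K * H ^ 2 / Q : ℝ) ≤ 48 * y ^ 18 := by
      rw [← hQ, div_le_iff₀ (by positivity)]
      exact e0.trans_eq (by ring)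
    linarith [one_le_pow₀ (n := 18) hy1]
  have e2 : H + 4 * Q * (1 + Real.log Q) ≤ 1606 * y ^ 401 := by
    have := log_le_of hy1 (x := Q) (hQ ▸ pow_pos hy0 _) hQ.ge
    calc H + 4 * Q * (1 + Real.log Q) ≤ 2 * y ^ 401 + 4 * Q * (401 * y) := by
          gcongr
          exact hH.trans (by gcongr; norm_num)
      _ = _ := by rw [← hQ]; ring
  have e3 : 0 ≤ H + 4 * Q * (1 + Real.log Q) := by
    have := Real.log_natCast_nonneg Q
    positivity
  have e4 : (K * H : ℝ) ≤ 2 * (H ^ 2 / y) := by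
    calc (K * H : ℝ) ≤ (2 * y ^ 167) * H := by gcongr; exact hK.trans (by gcongr; norm_num)
      _ = 2 * (y ^ 168 * H / y) := by field_simp
      _ ≤ 2 * (H * H / y) := by gcongr
      _ = _ := by ring
  have e5 : (K * H * y ^ 85 : ℝ) ≤ 2 * (H ^ 2 / y) := by
    calc (K * H * y ^ 85 : ℝ) ≤ (2 * y ^ 82) * H * y ^ 85 := by gcongr
      _ = 2 * (y ^ 168 * H / y) := by field_simp
      _ ≤ 2 * (H * H / y) := by gcongr
      _ = _ := by ring
  have e6 : (K * H ^ 2 : ℝ) ≤ 2 * (H ^ 2 / y) * y ^ 85 := by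
    calc (K * H ^ 2 : ℝ) ≤ (2 * y ^ 84) * H ^ 2 := by gcongr; exact hK.trans (by gcongr; norm_num)
      _ = _ := by field_simp
  have e7 : 2 * (C * y * ((6 * K * H ^ 2 / Q + 1) * (H + 4 * Q * (1 + Real.log Q)))) ≤
      157388 * C * (H ^ 2 / y) * y ^ 85 := by
    calc _ ≤ 2 * (C * y * ((49 * y ^ 18) * (1606 * y ^ 401))) := by gcongr
      _ = 157388 * C * ((y ^ 168) ^ 2 / y) * y ^ 85 := by field_simp; ring
      _ ≤ _ := by gcongr
  have e8 : (K * H ^ 2 + 2 * (C * y * ((6 * K * H ^ 2 / Q + 1) *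
      (H + 4 * Q * (1 + Real.log Q))))) / y ^ 85 ≤ (2 + 157388 * C) * (H ^ 2 / y) := by
    rw [div_le_iff₀ (by positivity)]
    linarith
  linarith

theorem blockB (hM : ∀ m, ‖F m‖ ≤ M) (hy : 7 ≤ y) (hQ : y ^ 400 = Q) (hT : y ^ 320 ≤ T)
    (hq0 : 0 < q) (hq : q ≤ y ^ 37) (hTT : T ≤ T') (h1 : Per F η q T) (h2 : Per F η Q T')
    (h3 : ∀ m0, ‖∑ u ∈ range Q, F (m0 + u)‖ ≤ η * Q) (hb : (q : ZMod Q) * b = 1)
    (hδ : 0 ≤ δ) (hc : 400000 ≤ δ ^ 2 * y) {i0 : ℕ} (hi : y ^ 159 ≤ i0)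
    (hN : ((i0 + q * ⌈y ^ 144 / q⌉₊ : ℕ) : ℝ) ≤ y ^ 170) :
    ‖∑ i ∈ range (q * ⌈y ^ 144 / q⌉₊), F ((i0 + i) ^ 3)‖ ≤
      (q * ⌈y ^ 144 / q⌉₊ : ℕ) * (404 * η + M * δ) := by
  have hy0 : 0 < y := by linarith
  have hy1 : 1 ≤ y := by linarith
  have hq' : (0 : ℝ) < q := Nat.cast_pos.2 hq0
  have pw : ∀ a b : ℕ, a ≤ b → y ^ a ≤ y ^ b := fun a b h => pow_le_pow_right₀ hy1 h
  have hK : (⌈y ^ 82⌉₊ : ℝ) ≤ 2 * y ^ 82 := ceil_le_two (one_le_pow₀ hy1)
  have hK0 : (0 : ℝ) < ⌈y ^ 82⌉₊ := Nat.cast_pos.2 (Nat.ceil_pos.2 (pow_pos hy0 82))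
  have hH : (q * ⌈y ^ 144 / q⌉₊ : ℝ) ≤ 2 * y ^ 144 := by
    have := ceil_le_two (x := y ^ 144 / q) (by
      rw [le_div_iff₀ hq', one_mul]; exact hq.trans (pw _ _ (by norm_num)))
    calc (q * ⌈y ^ 144 / q⌉₊ : ℝ) ≤ q * (2 * (y ^ 144 / q)) := by gcongr
      _ = _ := by field_simp
  have hH' : y ^ 144 ≤ q * ⌈y ^ 144 / q⌉₊ := by
    have := Nat.le_ceil (y ^ 144 / q)
    rwa [div_le_iff₀' hq'] at this
  generalize ⌈y ^ 144 / q⌉₊ = H at *
  have hH0 : (0 : ℝ) < H := pos_of_mul_pos_right ((pow_pos hy0 _).trans_le hH') hq'.le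
  rw [sum_range_mul' (fun i => F ((i0 + i) ^ 3))]
  refine (norm_sum_le _ _).trans ((sum_le_card_nsmul _ _ (H * (404 * η + M * δ))
    fun r hr => ?_).trans_eq (by rw [card_range, nsmul_eq_mul]; push_cast; ring))
  have hr' : (r : ℝ) ≤ q := by exact_mod_cast (mem_range.1 hr).le
  have e0 : ((i0 + r + q * H : ℕ) : ℝ) ≤ 2 * y ^ 170 := by
    push_cast at hN ⊢
    linarith [pw 37 170 (by norm_num)]
  simp only [← add_assoc]
  refine window' hM hy hQ hT (by exact_mod_cast hq.trans ((pw _ _ (by norm_num)).trans hQ.le))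
    hTT h1 h2 h3 hb H 0 (fun j => (i0 + r + q * j) ^ 3) (fun j hj => ⟨Nat.zero_le _, ?_⟩) hδ
    (c := 2 + 401 ^ 2) (by linarith) ?_
  · have e1 : ((i0 + r + q * j : ℕ) : ℝ) ≤ 2 * y ^ 170 :=
      le_trans (by exact_mod_cast (by gcongr : i0 + r + q * j ≤ i0 + r + q * H)) e0
    have e2 : (T : ℝ) ≤ T' := by exact_mod_cast hTT
    have e3 : ((i0 + r + q * j : ℕ) : ℝ) ^ 3 < Q * T' := by
      calc ((i0 + r + q * j : ℕ) : ℝ) ^ 3 ≤ (2 * y ^ 170) ^ 3 := by gcongr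
        _ = 8 * y ^ 510 := by ring
        _ < y ^ 2 * y ^ 718 := mul_lt_mul (by nlinarith) (pw _ _ (by norm_num)) (by positivity)
            (by positivity)
        _ = Q * y ^ 320 := by rw [← hQ]; ring
        _ ≤ Q * T' := by gcongr; exact hT.trans e2
    rw [zero_add]
    exact_mod_cast e3
  generalize ⌈y ^ 82⌉₊ = K at *
  have hi' : y ^ 159 ≤ (i0 + r : ℕ) := by push_cast; linarith [(Nat.cast_nonneg r : (0 : ℝ) ≤ r)]
  refine (kl_cubic hb hq0 K H (i0 + r) (Nat.cast_pos.1 ((pow_pos hy0 _).trans_le hi')) ?_).trans ?_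
  · have : (12 * K * (q * H) * (i0 + r + q * H : ℕ) : ℝ) ≤ Q := by
      calc (12 * K * (q * H) * (i0 + r + q * H : ℕ) : ℝ)
          ≤ 12 * (2 * y ^ 82) * (2 * y ^ 144) * (2 * y ^ 170) := by gcongr
        _ = 96 * y ^ 396 := by ring
        _ ≤ 7 ^ 4 * y ^ 396 := by gcongr; norm_num
        _ ≤ y ^ 4 * y ^ 396 := by gcongr
        _ = Q := by rw [← hQ]; ring
    rw [← mul_assoc] at this
    exact_mod_cast this
  have e1 : y ^ 107 ≤ H := by
    refine le_of_mul_le_mul_left ?_ (pow_pos hy0 37)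
    calc y ^ 37 * y ^ 107 = y ^ 144 := by ring
      _ ≤ (q : ℝ) * H := hH'
      _ ≤ _ := by gcongr
  have e2 := log_le_of hy1 hK0 (hK.trans (by
    calc 2 * y ^ 82 ≤ y * y ^ 82 := by gcongr; linarith
      _ = y ^ 83 := by ring
      _ ≤ _ := pw _ _ (by norm_num)))
  have e3 := log_le_of hy1 hH0 (by
    have : (1 : ℝ) ≤ q := by exact_mod_cast hq0
    calc (H : ℝ) ≤ q * H := le_mul_of_one_le_left hH0.le this
      _ ≤ 2 * y ^ 144 := hH
      _ ≤ y * y ^ 144 := by gcongr; linarith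
      _ = y ^ 145 := by ring
      _ ≤ _ := pw _ _ (by norm_num))
  have e4 : (K * H : ℝ) ≤ 2 * (H ^ 2 / y) := by
    calc (K * H : ℝ) ≤ (2 * y ^ 106) * H := by gcongr; exact hK.trans (by gcongr; norm_num)
      _ = 2 * (y ^ 107 * H / y) := by field_simp
      _ ≤ 2 * (H * H / y) := by gcongr
      _ = _ := by ring
  have e5 : (Q / (q * (i0 + r : ℕ)) * ((1 + Real.log K) * (1 + Real.log H)) : ℝ) ≤
      401 ^ 2 * (H ^ 2 / y) := by
    have := Real.log_natCast_nonneg K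
    have := Real.log_natCast_nonneg H
    calc (Q / (q * (i0 + r : ℕ)) * ((1 + Real.log K) * (1 + Real.log H)) : ℝ)
        ≤ Q / (q * y ^ 159) * ((401 * y) * (401 * y)) := by gcongr
      _ = 401 ^ 2 * (y ^ 100 * y ^ 144 / q / y) := by rw [← hQ]; field_simp
      _ ≤ 401 ^ 2 * (H * (q * H) / q / y) := by
          gcongr
          exact (pw _ _ (by norm_num)).trans e1
      _ = _ := by field_simp
  linarith

theorem core {C : ℕ} (hC1 : 1 ≤ C) (hC : ∀ n : ℕ, n ≠ 0 → #n.divisors ^ 840 ≤ C * n)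
    (hM : ∀ m, ‖F m‖ ≤ M) (hη : 0 ≤ η) (hδ : 0 ≤ δ) {Y z : ℝ} (hY : 7 ≤ Y)
    (hc : 400000 * C ≤ δ ^ 2 * Y) (hz : Y ≤ z) (hy : Y ≤ y) {p T'' N : ℕ} [NeZero q]
    (hq : z ^ 400 = q) (hQ : y ^ 400 = Q) (hpq : p ≤ q) (hT : z ^ 320 ≤ T) (hT' : y ^ 320 ≤ T')
    (hTT : T ≤ T') (hTT' : T' ≤ T'') (h1 : Per F η p T) (h2 : Per F η q T') (h3 : Per F η Q T'')
    (h4 : ∀ m0, ‖∑ u ∈ range q, F (m0 + u)‖ ≤ η * q)
    (h5 : ∀ m0, ‖∑ u ∈ range Q, F (m0 + u)‖ ≤ η * Q) (c1 : p.Coprime q) (c2 : q.Coprime Q)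
    (hN : z ^ 170 ≤ N) (hN' : N ≤ y ^ 170) :
    ‖∑ i ∈ range N, F (i ^ 3)‖ ≤ N * (404 * η + M * δ + 3 * M / Y) := by
  have hM0 : 0 ≤ M := (norm_nonneg _).trans (hM 0)
  have hC' : (1 : ℝ) ≤ C := by exact_mod_cast hC1
  have hY0 : 0 < Y := by linarith
  have hz1 : 1 ≤ z := by linarith
  have hy1 : 1 ≤ y := by linarith
  have hH : (⌈z ^ 168⌉₊ : ℝ) ≤ 2 * z ^ 168 := ceil_le_two (one_le_pow₀ hz1)
  obtain ⟨a, ha⟩ := ((ZMod.isUnit_iff_coprime p q).2 c1).exists_right_inv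
  obtain ⟨b, hb⟩ := ((ZMod.isUnit_iff_coprime q Q).2 c2).exists_right_inv
  by_cases hw : 3 * N ^ 2 * ⌈z ^ 168⌉₊ < q * T'
  · have k1 := blocks (a := fun i => F (i ^ 3)) (s := 0) (N := N) (fun i => hM _) (by positivity)
      le_rfl (Nat.ceil_pos.2 (by positivity)) fun i0 _ hi => blockA hC1 hC hM (hY.trans hz) hq hT
        hpq hTT h1 h2 h4 ha hδ (hc.trans (by gcongr)) hi hw
    have k2 : (⌈z ^ 168⌉₊ : ℝ) ≤ N * (3 / Y) := by
      calc (⌈z ^ 168⌉₊ : ℝ) ≤ 2 * z ^ 168 := hH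
        _ ≤ 3 * z ^ 169 := by gcongr <;> norm_num
        _ = z ^ 170 * (3 / z) := by field_simp
        _ ≤ _ := by gcongr
    have k3 := mul_le_mul_of_nonneg_left k2 hM0
    calc _ ≤ _ := k1
      _ ≤ N * (404 * η + M * δ) + M * (N * (3 / Y)) := by rw [zero_add]; linarith
      _ = _ := by ring
  · have e1 : (q * T' : ℝ) ≤ 3 * N ^ 2 * ⌈z ^ 168⌉₊ := by exact_mod_cast not_lt.1 hw
    have e2 : z ^ 231 * y ^ 320 ≤ N ^ 2 := by
      refine le_of_mul_le_mul_left ?_ (pow_pos (by linarith : 0 < z) 169)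
      calc z ^ 169 * (z ^ 231 * y ^ 320) = q * y ^ 320 := by rw [← hq]; ring
        _ ≤ (q : ℝ) * T' := by gcongr
        _ ≤ 3 * N ^ 2 * (2 * z ^ 168) := e1.trans (by gcongr)
        _ = 6 * z ^ 168 * N ^ 2 := by ring
        _ ≤ z * z ^ 168 * N ^ 2 := by gcongr; linarith
        _ = _ := by ring
    have e3 : y ^ 160 ≤ N := by
      refine le_of_sq_le_sq (le_trans ?_ e2) (Nat.cast_nonneg _)
      rw [← pow_mul]
      exact le_mul_of_one_le_left (by positivity) (one_le_pow₀ hz1)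
    have e4 : z ^ 11 ≤ y := by
      refine le_of_pow_le_pow_left₀ (n := 20) (by norm_num) (by positivity) ?_
      refine le_of_mul_le_mul_right ?_ (pow_pos (by linarith : 0 < y) 320)
      calc (z ^ 11) ^ 20 * y ^ 320 ≤ z ^ 231 * y ^ 320 := by
            rw [← pow_mul]; gcongr; norm_num
        _ ≤ (y ^ 170) ^ 2 := e2.trans (by gcongr)
        _ = _ := by ring
    have e5 : q ≤ y ^ 37 := by
      calc (q : ℝ) = z ^ 400 := hq.symm
        _ ≤ (z ^ 11) ^ 37 := by rw [← pow_mul]; gcongr; norm_num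
        _ ≤ _ := by gcongr
    have hq' : (0 : ℝ) < q := Nat.cast_pos.2 (NeZero.pos q)
    have k1 := blocks (a := fun i => F (i ^ 3)) (s := N / y) (N := N) (fun i => hM _)
      (by positivity) (by positivity)
      (Nat.mul_pos (NeZero.pos q) (Nat.ceil_pos.2 (by positivity : 0 < y ^ 144 / q)))
      fun i0 hi0 hi => blockB hM (hY.trans hy) hQ hT' (NeZero.pos q) e5 hTT' h2 h3 h5 hb hδ
        (le_trans (by linarith) (hc.trans (by gcongr)))
        (le_trans (by rw [le_div_iff₀ (by linarith), ← pow_succ]; exact e3) hi0)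
        (le_trans (by exact_mod_cast hi) hN')
    have k2 : ((q * ⌈y ^ 144 / q⌉₊ : ℕ) : ℝ) ≤ 2 * (N / y) := by
      have := ceil_le_two (x := y ^ 144 / q) (by
        rw [le_div_iff₀ hq', one_mul]; exact e5.trans (by gcongr; norm_num))
      push_cast
      calc (q * ⌈y ^ 144 / q⌉₊ : ℝ) ≤ q * (2 * (y ^ 144 / q)) := by gcongr
        _ = 2 * (y ^ 145 / y) := by field_simp
        _ ≤ _ := by gcongr; exact le_trans (by gcongr; norm_num) e3
    have k3 : (N / y : ℝ) ≤ N / Y := by gcongr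
    have k4 := mul_le_mul_of_nonneg_left
      (show (N / y + (q * ⌈y ^ 144 / q⌉₊ : ℕ) : ℝ) ≤ 3 * (N / Y) by linarith) hM0
    calc _ ≤ _ := k1
      _ ≤ N * (404 * η + M * δ) + M * (3 * (N / Y)) := by linarith
      _ = _ := by ring

end Pool.Agent.MP_e4c747_an

end

-- part MP_e4c747_an.Main
section

/-!
Uniform convergence of cubic averages in rigid uniquely ergodic systems.
-/

set_option autoImplicit false
set_option linter.unusedSectionVars false

open Finset Filter MeasureTheory Topology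
open scoped ENNReal BoundedContinuousFunction

namespace Pool.Agent.MP_e4c747_an

variable {X : Type*} [MetricSpace X] [CompactSpace X] [MeasurableSpace X] [BorelSpace X]

/-- empirical measure along an orbit -/
noncomputable def emp (T : X → X) (p : ℕ × X) : ProbabilityMeasure X :=
  ⟨((p.1 + 1 : ℕ) : ℝ≥0∞)⁻¹ • ∑ u ∈ range (p.1 + 1), Measure.dirac (T^[u] p.2), ⟨by
    rw [Measure.smul_apply, Measure.coe_finsetSum, Finset.sum_apply]
    simp only [measure_univ, sum_const, card_range, nsmul_eq_mul, mul_one, smul_eq_mul]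
    exact ENNReal.inv_mul_cancel (by simp) (by simp)⟩⟩

theorem integral_emp {E : Type} [NormedAddCommGroup E] [NormedSpace ℝ E] [CompleteSpace E]
    (T : X → X) (p : ℕ × X) (g : X →ᵇ E) :
    ∫ x, g x ∂(emp T p : Measure X) = ((p.1 + 1 : ℕ) : ℝ)⁻¹ • ∑ u ∈ range (p.1 + 1), g (T^[u] p.2) := by
  show ∫ x, g x ∂(((p.1 + 1 : ℕ) : ℝ≥0∞)⁻¹ • ∑ u ∈ range (p.1 + 1), Measure.dirac (T^[u] p.2)) = _
  rw [integral_smul_measure, integral_finsetSum_measure fun _ _ => integrable_dirac (by simp)]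
  simp only [integral_dirac, ENNReal.toReal_inv, ENNReal.toReal_natCast]

theorem birkhoff_uniform {T : X → X} (hT : Continuous T) (μ : Measure X) [IsProbabilityMeasure μ]
    (hu : ∀ ν : Measure X, IsProbabilityMeasure ν → ν.map T = ν → ν = μ) (f : C(X, ℂ)) {η : ℝ}
    (hη : 0 < η) :
    ∀ᶠ n in atTop, ∀ x, ‖∑ u ∈ range n, (f (T^[u] x) - ∫ y, f y ∂μ)‖ ≤ η * n := by
  have h1 : Tendsto (emp T) (atTop ×ˢ ⊤) (𝓝 ⟨μ, inferInstance⟩) := by
    refine tendsto_nhds_of_unique_mapClusterPt fun ν hν => Subtype.ext (hu _ ν.2 ?_)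
    have : IsProbabilityMeasure ((ν : Measure X).map T) :=
      Measure.isProbabilityMeasure_map hT.aemeasurable
    refine ext_of_forall_integral_eq_of_IsFiniteMeasure (μ := (ν : Measure X).map T)
      (ν := (ν : Measure X)) fun g => ?_
    rw [integral_map hT.aemeasurable g.continuous.aestronglyMeasurable, ← sub_eq_zero]
    have h2 := ((ProbabilityMeasure.continuous_integral_boundedContinuousFunction
      (g.compContinuous ⟨T, hT⟩)).sub
      (ProbabilityMeasure.continuous_integral_boundedContinuousFunction g)).continuousAt (x := ν)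
    have h3 := hν.continuousAt_comp h2
    refine eq_of_nhds_neBot (ClusterPt.mono h3 ?_)
    refine squeeze_zero_norm (a := fun p : ℕ × X => 2 * ‖g‖ * ((p.1 + 1 : ℕ) : ℝ)⁻¹)
      (fun p => ?_) ?_
    · simp only [Function.comp, Pi.sub_apply, integral_emp, ← smul_sub, ← sum_sub_distrib]
      have h4 : ∑ u ∈ range (p.1 + 1), ((g.compContinuous ⟨T, hT⟩) (T^[u] p.2) - g (T^[u] p.2)) =
          g (T^[p.1 + 1] p.2) - g (T^[0] p.2) := by
        rw [← sum_range_sub (fun u => g (T^[u] p.2))]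
        refine sum_congr rfl fun u _ => ?_
        rw [Function.iterate_succ_apply']
        rfl
      rw [h4, norm_smul, norm_inv, Real.norm_natCast, mul_comm, two_mul]
      gcongr
      exact (norm_sub_le _ _).trans (add_le_add (g.norm_coe_le_norm _) (g.norm_coe_le_norm _))
    · have h4 : Tendsto (fun n : ℕ => 2 * ‖g‖ * ((n + 1 : ℕ) : ℝ)⁻¹) atTop (𝓝 (2 * ‖g‖ * 0)) :=
        (tendsto_inv_atTop_nhds_zero_nat.comp (tendsto_add_atTop_nat 1)).const_mul _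
      rw [mul_zero] at h4
      exact h4.comp tendsto_fst
  have h2 := (ProbabilityMeasure.tendsto_iff_forall_integral_rclike_tendsto ℂ).1 h1
    (BoundedContinuousFunction.mkOfCompact f)
  have h3 := (Metric.tendsto_nhds.1 h2) η hη
  rw [eventually_prod_iff] at h3
  obtain ⟨pa, hpa, pb, hpb, h4⟩ := h3
  obtain ⟨N, hN⟩ := eventually_atTop.1 hpa
  refine eventually_atTop.2 ⟨N + 1, fun n hn x => ?_⟩
  obtain ⟨m, rfl⟩ : ∃ m, n = m + 1 := ⟨n - 1, by omega⟩
  have h5 := h4 (hN m (by omega)) (eventually_top.1 hpb x)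
  rw [integral_emp, dist_eq_norm] at h5
  have h6 : (0 : ℝ) < (m + 1 : ℕ) := by positivity
  have h7 : ∑ u ∈ range (m + 1), (f (T^[u] x) - ∫ y, f y ∂μ) = ((m + 1 : ℕ) : ℝ) •
      (((m + 1 : ℕ) : ℝ)⁻¹ • ∑ u ∈ range (m + 1), f (T^[u] x) - ∫ y, f y ∂μ) := by
    rw [smul_sub, smul_smul, mul_inv_cancel₀ h6.ne', one_smul, sum_sub_distrib, sum_const,
      card_range, Nat.cast_smul_eq_nsmul]
  rw [h7, norm_smul, Real.norm_natCast, mul_comm]
  exact mul_le_mul_of_nonneg_right h5.le h6.le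

theorem cubic_uniform {T : X → X} (hT : Continuous T) (μ : Measure X) [IsProbabilityMeasure μ]
    (hu : ∀ ν : Measure X, IsProbabilityMeasure ν → ν.map T = ν → ν = μ)
    (q : ℕ → ℕ) (hq : StrictMono q) (hpos : ∀ n, 0 < q n) (hcop : ∀ n, (q n).Coprime (q (n + 1)))
    (hR : ∀ ε > 0, ∀ᶠ n in atTop, ∀ t : ℕ, (t : ℝ) < (q (n + 1) : ℝ) ^ (4 / 5 : ℝ) →
      ∀ x, dist x (T^[t * q n] x) ≤ ε) (f : C(X, ℂ)) :
    TendstoUniformly (fun (N : ℕ) (x : X) => (N : ℂ)⁻¹ * ∑ i ∈ range N, f (T^[i ^ 3] x))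
      (fun _ => ∫ y, f y ∂μ) atTop := by
  classical
  rw [Metric.tendstoUniformly_iff]
  intro ε hε
  obtain ⟨C, hC1, hC⟩ := divisor_bound 840
  let M : ℝ := ‖f‖ + ‖∫ y, f y ∂μ‖ + 1
  have hM0 : 0 < M := by positivity
  have hη : 0 < ε / 2000 := by positivity
  have hδ : 0 < ε / (4 * M) := by positivity
  let Y : ℝ := max 7 (max (400000 * C / (ε / (4 * M)) ^ 2) (12 * M / ε))
  let y : ℕ → ℝ := fun n => (q n : ℝ) ^ ((400 : ℕ) : ℝ)⁻¹
  have hy : ∀ n, y n ^ 400 = q n := fun n =>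
    Real.rpow_inv_natCast_pow (Nat.cast_nonneg _) (by norm_num)
  have hy0 : ∀ n, 0 ≤ y n := fun n => Real.rpow_nonneg (Nat.cast_nonneg _) _
  have hyt : Tendsto y atTop atTop := (tendsto_rpow_atTop (by norm_num)).comp
    (tendsto_natCast_atTop_atTop.comp hq.tendsto_atTop)
  have hy2 : ∀ n, (q n : ℝ) ^ (4 / 5 : ℝ) = y n ^ 320 := fun n => by
    rw [← hy n, ← Real.rpow_natCast, ← Real.rpow_mul (hy0 n), ← Real.rpow_natCast]
    norm_num
  have hym : Monotone y := fun m n h =>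
    Real.rpow_le_rpow (Nat.cast_nonneg _) (by exact_mod_cast hq.monotone h) (by norm_num)
  obtain ⟨ρ, hρ, hρ'⟩ := Metric.uniformContinuous_iff_le.1
    (CompactSpace.uniformContinuous_of_continuous f.continuous) _ hη
  obtain ⟨n0, hn0⟩ := eventually_atTop.1 (((hR ρ hρ).and (hq.tendsto_atTop.eventually
    (birkhoff_uniform hT μ hu f hη))).and (hyt.eventually_ge_atTop Y))
  refine ((tendsto_natCast_atTop_atTop (R := ℝ)).eventually_ge_atTop (y (n0 + 1) ^ 170)).mono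
    fun N hN x => ?_
  have hex : ∃ n, (N : ℝ) < y n ^ 170 :=
    (((tendsto_pow_atTop (by norm_num)).comp hyt).eventually_gt_atTop (N : ℝ)).exists
  have h1 : n0 + 1 < Nat.find hex := by
    by_contra h1
    exact (Nat.find_spec hex).not_ge
      ((pow_le_pow_left₀ (hy0 _) (hym (not_lt.1 h1)) 170).trans hN)
  obtain ⟨n, hn⟩ : ∃ n, Nat.find hex = n + 2 := ⟨Nat.find hex - 2, by omega⟩
  have h2 : (N : ℝ) < y (n + 2) ^ 170 := hn ▸ Nat.find_spec hex
  have h3 : y (n + 1) ^ 170 ≤ N := not_lt.1 (Nat.find_min hex (by omega))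
  let F : ℕ → ℂ := fun m => f (T^[m] x) - ∫ y, f y ∂μ
  have hper : ∀ k, n0 ≤ k → Per F (ε / 2000) (q k) ⌈y (k + 1) ^ 320⌉₊ := by
    intro k hk m t ht
    have := hρ' ((hn0 k hk).1.1 t (by rw [hy2]; exact Nat.lt_ceil.1 ht) (T^[m] x))
    rw [← Function.iterate_add_apply, add_comm, dist_comm, dist_eq_norm] at this
    simpa [F] using this
  have hmean : ∀ k, n0 ≤ k → ∀ m0, ‖∑ u ∈ range (q k), F (m0 + u)‖ ≤ ε / 2000 * q k := by
    intro k hk m0
    have := (hn0 k hk).1.2 (T^[m0] x)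
    simpa only [← Function.iterate_add_apply, add_comm _ m0] using this
  have hceil : ∀ k, ⌈y k ^ 320⌉₊ ≤ ⌈y (k + 1) ^ 320⌉₊ := fun k =>
    Nat.ceil_mono (pow_le_pow_left₀ (hy0 _) (hym (Nat.le_succ k)) _)
  have : NeZero (q (n + 1)) := ⟨(hpos _).ne'⟩
  have : NeZero (q (n + 2)) := ⟨(hpos _).ne'⟩
  have hY7 : 7 ≤ Y := le_max_left _ _
  have h4 := core (F := F) (M := M) (Y := Y) hC1 hC (fun m => (norm_sub_le _ _).trans (by
      have := f.norm_coe_le_norm (T^[m] x)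
      simp only [M]; linarith)) hη.le hδ.le hY7
    (by
      have : 400000 * C / (ε / (4 * M)) ^ 2 ≤ Y := (le_max_left _ _).trans (le_max_right _ _)
      rwa [div_le_iff₀' (by positivity)] at this)
    (hn0 (n + 1) (by omega)).2 (hn0 (n + 2) (by omega)).2 (hy (n + 1)) (hy (n + 2))
    (hq.monotone (Nat.le_succ n)) (Nat.le_ceil _) (Nat.le_ceil _) (hceil (n + 1)) (hceil (n + 2))
    (hper n (by omega)) (hper (n + 1) (by omega)) (hper (n + 2) (by omega))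
    (hmean _ (by omega)) (hmean _ (by omega)) (hcop n) (hcop (n + 1)) h3 h2.le
  have hN0 : (0 : ℝ) < N := lt_of_lt_of_le (pow_pos (by linarith [(hn0 (n + 1) (by omega)).2]) _) h3
  have hN1 : (N : ℂ) ≠ 0 := by exact_mod_cast hN0.ne'
  have h5 : 3 * M / Y ≤ ε / 4 := by
    have : 12 * M / ε ≤ Y := (le_max_right _ _).trans (le_max_right _ _)
    rw [div_le_iff₀ hε] at this
    rw [div_le_iff₀ (by linarith)]
    linarith
  have h6 : M * (ε / (4 * M)) = ε / 4 := by field_simp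
  have h7 : (N : ℂ)⁻¹ * ∑ i ∈ range N, f (T^[i ^ 3] x) - ∫ y, f y ∂μ =
      (N : ℂ)⁻¹ * ∑ i ∈ range N, F (i ^ 3) := by
    simp only [F, sum_sub_distrib, sum_const, card_range, nsmul_eq_mul]
    field_simp
  rw [dist_comm, dist_eq_norm, h7, norm_mul, norm_inv, Complex.norm_natCast, inv_mul_lt_iff₀ hN0]
  refine h4.trans_lt (mul_lt_mul_of_pos_left ?_ hN0)
  linarith

end Pool.Agent.MP_e4c747_an

end
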